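import Pool.Agent.P8H60.BC.Stm2

/-!
# Project BC, package AV: Chebyshev for sums of independent normal variables
-/

set_option autoImplicit false

open Finset MeasureTheory ProbabilityTheory

namespace Pool.Agent.P8H29.BC

open Pool.Agent.P8H60.BC

theorem t_AV : S_AV := by
  intro m S u hu
  obtain ⟨μ, hμ⟩ : ∃ μ : Measure (Fin m → ℝ), μ = Measure.pi fun _ : Fin m => gaussianReal 0 1 := ⟨_, rfl⟩
  have : IsProbabilityMeasure μ := by rw [hμ]; infer_instance
  have hmp : ∀ i : Fin m, MeasurePreserving (fun z : Fin m → ℝ => z i) μ (gaussianReal 0 1) := by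
    intro i
    rw [hμ]
    exact measurePreserving_eval (fun _ : Fin m => gaussianReal 0 1) i
  have hL : ∀ i : Fin m, MemLp (fun z : Fin m → ℝ => z i) 2 μ := fun i =>
    (memLp_id_gaussianReal 2).comp_measurePreserving (hmp i)
  have hmean : ∀ i : Fin m, ∫ z, z i ∂μ = 0 := by
    intro i
    have h := (hmp i).map_eq
    have h1 : ∫ z, z i ∂μ = ∫ x, x ∂(μ.map fun z : Fin m → ℝ => z i) := by
      exact (integral_map (f := fun x : ℝ => x) (hmp i).measurable.aemeasurable aestronglyMeasurable_id).symm
    rw [h1, h, integral_id_gaussianReal]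
  have hvar : ∀ i : Fin m, Var[fun z : Fin m → ℝ => z i; μ] = 1 := by
    intro i
    have h1 : Var[id; μ.map fun z : Fin m → ℝ => z i] = Var[fun z : Fin m → ℝ => z i; μ] := by
      rw [variance_map aemeasurable_id (hmp i).measurable.aemeasurable]
      rfl
    rw [← h1, (hmp i).map_eq, variance_id_gaussianReal]
    simp
  have hind : iIndepFun (fun (i : Fin m) (z : Fin m → ℝ) => z i) μ := by
    rw [hμ]
    exact iIndepFun_pi (X := fun _ x => x) (fun _ => aemeasurable_id)
  have hsum : Var[∑ i ∈ S, fun z : Fin m → ℝ => z i; μ] = S.card := by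
    rw [IndepFun.variance_sum (fun i _ => hL i) (fun i _ j _ hij => hind.indepFun hij)]
    simp [hvar]
  have hLs : MemLp (∑ i ∈ S, fun z : Fin m → ℝ => z i) 2 μ := memLp_finsetSum' S fun i _ => hL i
  have hm0 : ∫ z, (∑ i ∈ S, fun z : Fin m → ℝ => z i) z ∂μ = 0 := by
    simp only [Finset.sum_apply]
    rw [integral_finsetSum S fun i _ => (hL i).integrable (by norm_num)]
    exact Finset.sum_eq_zero fun i _ => hmean i
  have hch := meas_ge_le_variance_div_sq hLs hu
  rw [hm0, hsum] at hch
  rw [← hμ, measureReal_def]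
  refine ENNReal.toReal_le_of_le_ofReal (by positivity) (le_trans (measure_mono ?_) hch)
  intro z hz
  simpa [Finset.sum_apply] using hz

end Pool.Agent.P8H29.BC
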